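import Mathlib

set_option autoImplicit false
set_option maxSynthPendingDepth 3

namespace Pool.Agent.Results.MP_c55a01_nt.Counter

/-- finitely many values and finite `k`-kernel. -/
def Automatic (k : ℕ) (a : ℕ → ℤ) : Prop :=
  (Set.range a).Finite ∧ {f : ℕ → ℤ | ∃ e j, j < k ^ e ∧ f = fun n => a (k ^ e * n + j)}.Finite

def r (a : ℕ → ℤ) : ℕ → ℤ
  | 0 => 0
  | 1 => 1
  | n + 2 => a (n + 2) * r a (n + 1) + r a n

def δ (q : Fin 5) (d : ℕ) : Fin 5 :=
  if q = 0 then (if d = 0 then 0 else 1) else if q = 1 then (if d = 0 then 2 else 4)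
  else if q = 2 then (if d = 0 then 2 else 3) else q

def v (n : ℕ) : Fin 5 := if n = 0 then 0 else δ (v (n / 2)) (n % 2)
decreasing_by omega

def out (p : Fin 2 × Fin 5) : ℤ := if p.1 = 1 then 0 else if p.2 = 3 then 1 else if p.2 = 4 then -1 else 0

def u (n : ℕ) : Fin 2 × Fin 5 := (Fin.ofNat 2 n, v n)

lemma v_eq (n : ℕ) : v n = δ (v (n / 2)) (n % 2) := by
  by_cases h : n = 0
  · subst h; rw [v]; rfl
  · rw [v, if_neg h]

lemma ker (e : ℕ) : ∀ j < 2 ^ e, ∃ g : Fin 2 × Fin 5 → Fin 2 × Fin 5, ∀ n, u (2 ^ e * n + j) = g (u n) := by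
  induction e with
  | zero => exact fun j hj => ⟨id, fun n => by simp at hj; simp [hj]⟩
  | succ e ih =>
    intro j hj
    obtain ⟨g, hg⟩ := ih (j / 2) (by omega)
    refine ⟨fun p => (Fin.ofNat 2 j, δ (g p).2 (j % 2)), fun n => ?_⟩
    have h : 2 ^ (e + 1) * n = 2 * (2 ^ e * n) := by ring
    simp only [← hg]
    rw [u, v_eq, h, show (2 * (2 ^ e * n) + j) / 2 = 2 ^ e * n + j / 2 by omega,
      show (2 * (2 ^ e * n) + j) % 2 = j % 2 by omega]
    exact Prod.ext (Fin.ext (by simp)) rfl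

lemma block (j : ℕ) : ∀ n, 2 * 2 ^ j ≤ n → n < 4 * 2 ^ j →
    v n = if n = 2 * 2 ^ j then 2 else if n < 3 * 2 ^ j then 3 else 4 := by
  have h1 : v 1 = 1 := by rw [v_eq, v]; rfl
  induction j with
  | zero =>
    intro n h2 h3
    obtain rfl | rfl : n = 2 ∨ n = 3 := by omega
    all_goals rw [v_eq, h1]; rfl
  | succ j ih =>
    intro n h2 h3
    rw [v_eq, ih (n / 2) (by omega) (by omega), pow_succ]
    split_ifs <;> first | omega | simp [δ] <;> omega

lemma r_odd (m : ℕ) : r (out ∘ u) (2 * m + 1) = 1 := by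
  induction m with
  | zero => rfl
  | succ m ih =>
    have : out (u (2 * m + 1 + 2)) = 0 := if_pos (Fin.ext (by simp [u]))
    rw [show 2 * (m + 1) + 1 = 2 * m + 1 + 2 by ring, r, ih, Function.comp, this]
    simp

lemma r_succ (j m : ℕ) (h1 : 2 * 2 ^ j ≤ m + 1) (h2 : m + 1 < 4 * 2 ^ j) :
    r (out ∘ u) (2 * (m + 1)) = r (out ∘ u) (2 * m) +
      if m + 1 = 2 * 2 ^ j then 0 else if m + 1 < 3 * 2 ^ j then 1 else -1 := by
  rw [mul_add_one, r, r_odd, Function.comp, u, block (j + 1) _ (by omega) (by omega), add_comm,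
    show Fin.ofNat 2 (2 * m + 2) = 0 from Fin.ext (by simp), pow_succ]
  split_ifs <;> first | omega | simp [out]

lemma r_even (j : ℕ) : ∀ m : ℕ, 2 * 2 ^ j ≤ m → m < 4 * 2 ^ j →
    r (out ∘ u) (2 * m) = min ((m : ℤ) - 2 * (2 ^ j : ℕ)) (4 * (2 ^ j : ℕ) - 2 - m) - j := by
  have key : ∀ j : ℕ, r (out ∘ u) (2 * (2 * 2 ^ j - 1)) = -j → ∀ m : ℕ, 2 * 2 ^ j ≤ m →
      m < 4 * 2 ^ j → r (out ∘ u) (2 * m) =
        min ((m : ℤ) - 2 * (2 ^ j : ℕ)) (4 * (2 ^ j : ℕ) - 2 - m) - j := by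
    intro j h m h1
    have h0 := Nat.two_pow_pos j
    induction m, h1 using Nat.le_induction with
    | base =>
      intro _
      have := r_succ j (2 * 2 ^ j - 1) (by omega) (by omega)
      rw [h, show 2 * 2 ^ j - 1 + 1 = 2 * 2 ^ j by omega, if_pos rfl] at this
      omega
    | succ m h1 ih =>
      intro h2
      rw [r_succ j m (by omega) h2, ih (by omega)]
      split_ifs <;> omega
  refine key j ?_
  induction j with
  | zero =>
    have : v 2 = 2 := block 0 2 le_rfl (by norm_num)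
    simp [r, out, u, this]
  | succ j ih =>
    have h0 := Nat.two_pow_pos j
    rw [key j ih _ (by omega) (by omega)]
    omega

lemma neg_iff (j n : ℕ) (h1 : 4 * 2 ^ j + 2 * j ≤ n) (h2 : n + 2 * j + 6 ≤ 16 * 2 ^ j) :
    r (out ∘ u) n < 0 ↔ n % 2 = 0 ∧ 8 * 2 ^ j ≤ n + 2 * j + 2 ∧ n ≤ 8 * 2 ^ j + 2 * j := by
  obtain ⟨m, rfl | rfl⟩ := Nat.even_or_odd' n
  · by_cases h : m < 4 * 2 ^ j
    · rw [r_even j m (by omega) h]; omega
    · rw [r_even (j + 1) m (by omega) (by omega), pow_succ]; omega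
  · rw [r_odd]; omega

/-- a `2`-automatic integer sequence whose sign sequence is not `k`-automatic for any `k ≥ 2`. -/
theorem result : ∃ a : ℕ → ℤ, Automatic 2 a ∧
    ∀ k ≥ 2, ¬ Automatic k (fun n => (r a n).sign) := by
  refine ⟨out ∘ u, ⟨(Set.finite_range out).subset (Set.range_comp_subset_range _ _),
    (Set.finite_range fun g : Fin 2 × Fin 5 → Fin 2 × Fin 5 => out ∘ g ∘ u).subset ?_⟩,
    fun k hk ⟨_, h⟩ => ?_⟩
  · rintro _ ⟨e, j, hj, rfl⟩
    obtain ⟨g, hg⟩ := ker e j hj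
    exact ⟨g, funext fun n => (congrArg out (hg n)).symm⟩
  have := h.to_subtype
  obtain ⟨C, hC⟩ : ∃ C, C = Nat.card ({f : ℕ → ℤ | ∃ e j, j < k ^ e ∧
    f = fun n => (r (out ∘ u) (k ^ e * n + j)).sign} → Prop) := ⟨_, rfl⟩
  obtain ⟨M, hM⟩ : ∃ M, M = 2 * (k * (4 * 3 ^ C) + 1) := ⟨_, rfl⟩
  obtain ⟨e, he⟩ : ∃ e, e = Nat.log k (4 * 3 ^ C * M) + 1 := ⟨_, rfl⟩
  have h1 : 4 * 3 ^ C * M < k ^ e := he ▸ Nat.lt_pow_succ_log_self hk _
  have h2 : k ^ e + 2 ≤ 2 ^ M := by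
    have h3 := Nat.pow_log_le_self k (show 4 * 3 ^ C * M ≠ 0 by rw [hM]; positivity)
    have h4 := Nat.two_mul_sq_add_one_le_two_pow_two_mul (k * (4 * 3 ^ C) + 1)
    rw [← hM] at h4
    rw [he, pow_succ']
    have h5 := Nat.mul_le_mul_left k h3
    rw [← mul_assoc] at h5
    generalize k * (4 * 3 ^ C) = D at *
    subst hM
    nlinarith
  have key : ∀ i i' : Fin (C + 1), i < i' → ¬ ∀ t < k ^ e,
      r (out ∘ u) (k ^ e * (8 * 2 ^ (3 ^ i.1 * M) / k ^ e) + t) < 0 ↔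
      r (out ∘ u) (k ^ e * (8 * 2 ^ (3 ^ i'.1 * M) / k ^ e) + t) < 0 := by
    intro i i' hi H
    have b : ∀ i : Fin (C + 1), 4 * (3 ^ i.1 * M) < k ^ e ∧ k ^ e + 2 ≤ 2 ^ (3 ^ i.1 * M) := fun i =>
      ⟨lt_of_le_of_lt (by rw [mul_assoc]; gcongr; exacts [by norm_num, i.is_le]) h1,
        h2.trans (Nat.pow_le_pow_right two_pos (Nat.le_mul_of_pos_left _ (by positivity)))⟩
    have b1 := b i
    have b2 := b i'
    have b3 : 3 * (3 ^ i.1 * M) ≤ 3 ^ i'.1 * M := by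
      rw [← mul_assoc, ← pow_succ']; gcongr; exacts [by norm_num, hi]
    have b4 : M ≤ 3 ^ i.1 * M := Nat.le_mul_of_pos_left _ (by positivity)
    generalize 3 ^ i.1 * M = j at *
    generalize 3 ^ i'.1 * M = j' at *
    have c1 := Nat.div_add_mod (8 * 2 ^ j) (k ^ e)
    have c2 := Nat.div_add_mod (8 * 2 ^ j') (k ^ e)
    have c3 := Nat.mod_lt (8 * 2 ^ j) (show 0 < k ^ e by omega)
    have c4 := Nat.mod_lt (8 * 2 ^ j') (show 0 < k ^ e by omega)
    generalize k ^ e * (8 * 2 ^ j / k ^ e) = A at *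
    generalize k ^ e * (8 * 2 ^ j' / k ^ e) = A' at *
    generalize 8 * 2 ^ j % k ^ e = B at *
    generalize 8 * 2 ^ j' % k ^ e = B' at *
    have H' : ∀ t < k ^ e, _ := fun t ht => (neg_iff j _ (by omega) (by omega)).symm.trans
      ((H t ht).trans (neg_iff j' _ (by omega) (by omega)))
    have d1 := H' _ c4
    by_cases h : 2 * j' ≤ B'
    · have d2 := H' (B' - 2 * j') (by omega)
      omega
    · have d2 := H' (B' + 2 * j') (by omega)
      omega
  obtain ⟨i, i', h3, h4⟩ := Function.not_injective_iff.1 fun hi => by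
    simpa using (Nat.card_le_card_of_injective (fun (i : Fin (C + 1)) (f : {f : ℕ → ℤ | ∃ e j,
      j < k ^ e ∧ f = fun n => (r (out ∘ u) (k ^ e * n + j)).sign}) =>
        f.1 (8 * 2 ^ (3 ^ i.1 * M) / k ^ e) < 0) hi).trans hC.ge
  have h5 := fun t (ht : t < k ^ e) => iff_of_eq (congrFun h3 ⟨_, e, t, ht, rfl⟩)
  simp only [Int.sign_neg_iff] at h5
  rcases h4.lt_or_gt with h | h
  exacts [key _ _ h h5, key _ _ h fun t ht => (h5 t ht).symm]

end Pool.Agent.Results.MP_c55a01_nt.Counter
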